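import Pool.Agent.Helper34.CAR.GoalsB

/-!
# Project CAR, packet RET: `B` is a retract of the fixed point algebra
-/

set_option autoImplicit false

namespace Pool.Agent.Helper10.CAR

open Pool.Agent.Helper34.CAR Pool.Agent.Helper39.Uct

variable {B : Type} [CStarAlgebra B] {θ : B →⋆ₐ[ℂ] B}

/-- block diagonal elements -/
noncomputable def bd (hTOP : S_TOP) (s : Sys B θ) (i : ℕ) : NonUnitalStarSubalgebra ℂ (s.A i) where
  carrier := {a | s.BlockDiag i a}
  add_mem' {a b} ha hb := fun x y h => by
    show (a + b) x y = 0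
    rw [Mt.add_apply, ha x y h, hb x y h, add_zero]
  zero_mem' := fun x y _ => rfl
  mul_mem' {a b} ha hb := (hTOP B θ s i).2.1 a b ha hb
  smul_mem' c a ha := fun x y h => by
    show (c • a) x y = 0
    rw [Mt.smul_apply, ha x y h, smul_zero]
  star_mem' {a} ha := (hTOP B θ s i).2.2.1 a ha

theorem mem_bd (hTOP : S_TOP) (s : Sys B θ) (i : ℕ) (a : s.A i) : a ∈ bd hTOP s i ↔ s.BlockDiag i a := Iff.rfl

theorem continuous_entry {I : Type} [Fintype I] [DecidableEq I] (x y : I) :
    Continuous fun a : Mt I B => a x y := by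
  rw [Metric.continuous_iff]
  intro a ε hε
  refine ⟨ε, hε, fun b hb => ?_⟩
  rw [dist_eq_norm] at hb ⊢
  rw [← Mt.sub_apply]
  exact (Mt.norm_entry_le _ _ _).trans_lt hb

theorem isClosed_bd (hTOP : S_TOP) (s : Sys B θ) (i : ℕ) : IsClosed (bd hTOP s i : Set (s.A i)) := by
  have : (bd hTOP s i : Set (s.A i)) = ⋂ (x : s.S i) (y : s.S i) (_ : s.wt i x ≠ s.wt i y),
      {a : s.A i | a x y = 0} := by
    ext a
    simp only [Set.mem_iInter]
    rfl
  rw [this]
  exact isClosed_iInter fun x => isClosed_iInter fun y => isClosed_iInter fun _ =>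
    isClosed_eq (continuous_entry x y) continuous_const

/-- powers of `θ` -/
noncomputable def th (θ : B →⋆ₐ[ℂ] B) : ℕ → B →⋆ₐ[ℂ] B
  | 0 => StarAlgHom.id ℂ B
  | i + 1 => (th θ i).comp θ

theorem ret (hEXT : S_EXT) (hTOP : S_TOP) : S_RET := by
  intro B _ θ hθ s L _ ι hι hinj γ hfix hcl H _ j hj hrange
  let D : ∀ i, NonUnitalStarSubalgebra ℂ (s.A i) := fun i => bd hTOP s i
  let iD : ∀ i, NonUnitalCStarAlgebra (D i) := fun i =>
    NonUnitalStarSubalgebra.nonUnitalCStarAlgebra (D i) (h_closed := isClosed_bd hTOP s i)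
  -- the maps to `H`
  have hex : ∀ (i : ℕ) (a : D i), ∃ h : H, j h = ι i a := by
    intro i a
    have : ι i (a : s.A i) ∈ Set.range j := by
      rw [hrange]
      exact hfix i a a.2
    exact this
  choose φ hφ using hex
  let Φ : ∀ i, D i →⋆ₙₐ[ℂ] H := fun i =>
    { toFun := φ i
      map_smul' := fun c a => hj (by
        rw [hφ, map_smul, hφ]
        show ι i (c • (a : s.A i)) = _
        rw [map_smul]
        rfl)
      map_zero' := hj (by
        rw [hφ, map_zero]
        show ι i (0 : s.A i) = 0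
        rw [map_zero])
      map_add' := fun a b => hj (by
        rw [hφ, map_add, hφ, hφ]
        show ι i ((a : s.A i) + b) = _
        rw [map_add])
      map_mul' := fun a b => hj (by
        rw [hφ, map_mul, hφ, hφ]
        show ι i ((a : s.A i) * b) = _
        rw [map_mul])
      map_star' := fun a => hj (by
        rw [hφ, map_star, hφ]
        show ι i (star (a : s.A i)) = _
        rw [map_star]) }
  have hΦ : ∀ i a, j (Φ i a) = ι i a := fun i a => hφ i a
  let f : ∀ i, D i →⋆ₙₐ[ℂ] B := fun i =>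
    { toFun := fun a => th θ i ((a : s.A i) (s.top i) (s.top i))
      map_smul' := fun c a => by
        show th θ i ((c • (a : s.A i)) (s.top i) (s.top i)) = _
        rw [Mt.smul_apply, map_smul]
        rfl
      map_zero' := by
        show th θ i ((0 : s.A i) (s.top i) (s.top i)) = _
        rw [Mt.zero_apply, map_zero]
      map_add' := fun a b => by
        show th θ i (((a : s.A i) + b) (s.top i) (s.top i)) = _
        rw [Mt.add_apply, map_add]
      map_mul' := fun a b => by
        show th θ i (((a : s.A i) * b) (s.top i) (s.top i)) = _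
        rw [(hTOP B θ s i).2.2.2.1 a b a.2 b.2, map_mul]
      map_star' := fun a => by
        show th θ i ((star (a : s.A i)) (s.top i) (s.top i)) = _
        rw [Mt.star_apply, map_star] }
  have hf : ∀ i (a : D i), f i a = th θ i ((a : s.A i) (s.top i) (s.top i)) := fun _ _ => rfl
  obtain ⟨F, hF⟩ := hEXT H B (fun i => D i) Φ f
    (fun i a b hab => by
      have h1 := congrArg j hab
      rw [hΦ, hΦ] at h1
      exact Subtype.ext (hinj i h1))
    (fun i x => by
      refine ⟨⟨s.κ i x, (hTOP B θ s i).1 x x.2⟩, hj ?_, ?_⟩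
      · rw [hΦ, hΦ]
        exact hι i x
      · rw [hf, hf]
        show (th θ i) (θ (s.κ i x (s.top (i + 1)) (s.top (i + 1)))) = _
        rw [(hTOP B θ s i).2.2.2.2 x, hθ])
    (by
      intro h
      have hiso : Isometry j := NonUnitalStarAlgHom.isometry j hj
      rw [hiso.isUniformInducing.isInducing.closure_eq_preimage_closure_image]
      show j h ∈ closure _
      have h1 : j h ∈ γ.fix := by
        rw [← hrange]
        exact ⟨h, rfl⟩
      refine closure_mono ?_ (hcl h1)
      rintro b ⟨i, a, ha, rfl⟩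
      exact ⟨Φ i ⟨a, ha⟩, Set.mem_iUnion.2 ⟨i, ⟨a, ha⟩, rfl⟩, hΦ i ⟨a, ha⟩⟩)
  -- the embedding
  have hb0 : ∀ b : B, (Mt.single s.s0 s.s0 b : s.A 0) ∈ D 0 := fun b x y h => absurd rfl h
  let i₀ : B →⋆ₙₐ[ℂ] D 0 :=
    { toFun := fun b => ⟨Mt.single s.s0 s.s0 b, hb0 b⟩
      map_smul' := fun c b => Subtype.ext (by
        show (Mt.single s.s0 s.s0 (c • b) : s.A 0) = c • Mt.single s.s0 s.s0 b
        refine Mt.ext fun x y => ?_
        rw [Mt.smul_apply, Mt.single_apply, Mt.single_apply]
        split_ifs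
        · rfl
        · rw [smul_zero])
      map_zero' := Subtype.ext (by
        show (Mt.single s.s0 s.s0 (0 : B) : s.A 0) = 0
        refine Mt.ext fun x y => ?_
        rw [Mt.single_apply, Mt.zero_apply, ite_self])
      map_add' := fun b b' => Subtype.ext (by
        show (Mt.single s.s0 s.s0 (b + b') : s.A 0) = Mt.single s.s0 s.s0 b + Mt.single s.s0 s.s0 b'
        refine Mt.ext fun x y => ?_
        rw [Mt.add_apply, Mt.single_apply, Mt.single_apply, Mt.single_apply]
        split_ifs
        · rfl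
        · rw [add_zero])
      map_mul' := fun b b' => Subtype.ext (by
        show (Mt.single s.s0 s.s0 (b * b') : s.A 0) = Mt.single s.s0 s.s0 b * Mt.single s.s0 s.s0 b'
        rw [Mt.single_mul_single])
      map_star' := fun b => Subtype.ext (by
        show (Mt.single s.s0 s.s0 (star b) : s.A 0) = star (Mt.single s.s0 s.s0 b)
        rw [Mt.star_single]) }
  refine ⟨(Φ 0).comp i₀, F, fun b => ?_⟩
  show F (Φ 0 (i₀ b)) = b
  rw [hF, hf]
  show (Mt.single s.s0 s.s0 b : s.A 0) s.s0 s.s0 = b
  rw [Mt.single_apply, if_pos ⟨rfl, rfl⟩]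

end Pool.Agent.Helper10.CAR
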